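import Pool.Agent.W945.Lc.Stm

/-! Project LC, part LC-GRAFT. -/

set_option autoImplicit false

namespace Pool.Agent.W583.Lc.GRAFT

open Pool.Agent.W945.Pw Pool.Agent.W945.Lc

variable {n : ℕ}

theorem eval_graft (T : DT n) (f : Bool → DT n) (x : Fin n → Bool) :
    (T.graft f).eval x = (f (T.eval x)).eval x := by
  induction T with
  | leaf b => rfl
  | node i l r hl hr =>
    simp only [DT.graft, DT.eval]
    split_ifs
    · exact hr
    · exact hl

theorem vars_graft (T : DT n) (f : Bool → DT n) :
    (T.graft f).vars ⊆ T.vars ∪ ((f false).vars ∪ (f true).vars) := by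
  induction T with
  | leaf b =>
    intro x hx
    simp only [DT.graft] at hx
    simp only [DT.vars, Finset.mem_union, Finset.notMem_empty, false_or]
    cases b
    · exact Or.inl hx
    · exact Or.inr hx
  | node i l r hl hr =>
    intro x hx
    simp only [DT.graft, DT.vars, Finset.mem_insert, Finset.mem_union] at hx ⊢
    rcases hx with h | h | h
    · exact Or.inl (Or.inl h)
    · have := hl h
      simp only [Finset.mem_union] at this
      tauto
    · have := hr h
      simp only [Finset.mem_union] at this
      tauto

theorem ok_graft (T : DT n) (f : Bool → DT n) : T.Ok → (f false).Ok → (f true).Ok →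
    Disjoint T.vars (f false).vars → Disjoint T.vars (f true).vars → (T.graft f).Ok := by
  induction T with
  | leaf b =>
    intro _ h0 h1 _ _
    simp only [DT.graft]
    cases b
    · exact h0
    · exact h1
  | node i l r hl hr =>
    intro hT h0 h1 d0 d1
    obtain ⟨hi1, hi2, hl', hr'⟩ := hT
    simp only [DT.vars, Finset.disjoint_insert_left, Finset.disjoint_union_left] at d0 d1
    refine ⟨?_, ?_, hl hl' h0 h1 d0.2.1 d1.2.1, hr hr' h0 h1 d0.2.2 d1.2.2⟩
    · intro hmem
      have := vars_graft l f hmem
      simp only [Finset.mem_union] at this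
      rcases this with h | h | h
      · exact hi1 h
      · exact d0.1 h
      · exact d1.1 h
    · intro hmem
      have := vars_graft r f hmem
      simp only [Finset.mem_union] at this
      rcases this with h | h | h
      · exact hi2 h
      · exact d0.1 h
      · exact d1.1 h

theorem depth_graft (T : DT n) (f : Bool → DT n) :
    (T.graft f).depth ≤ T.depth + max (f false).depth (f true).depth := by
  induction T with
  | leaf b =>
    simp only [DT.graft, DT.depth]
    cases b
    · have := le_max_left (f false).depth (f true).depth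
      omega
    · have := le_max_right (f false).depth (f true).depth
      omega
  | node i l r hl hr =>
    simp only [DT.graft, DT.depth]
    have h1 := le_max_left l.depth r.depth
    have h2 := le_max_right l.depth r.depth
    have : max (l.graft f).depth (r.graft f).depth ≤
        max l.depth r.depth + max (f false).depth (f true).depth := max_le (by omega) (by omega)
    omega

theorem pr_graft (T : DT n) (f : Bool → DT n) :
    (T.graft f).pr = (1 - T.pr) * (f false).pr + T.pr * (f true).pr := by
  induction T with
  | leaf b => cases b <;> simp [DT.graft, DT.pr]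
  | node i l r hl hr =>
    simp only [DT.graft, DT.pr, hl, hr]
    ring

theorem cost_graft (T : DT n) (f : Bool → DT n) :
    (T.graft f).cost = T.cost + (1 - T.pr) * (f false).cost + T.pr * (f true).cost := by
  induction T with
  | leaf b => cases b <;> simp [DT.graft, DT.pr, DT.cost]
  | node i l r hl hr =>
    simp only [DT.graft, DT.pr, DT.cost, hl, hr]
    ring

theorem wt_graft (T : DT n) (f : Bool → DT n) (z w₀ w₁ : ℝ) :
    (T.graft f).wt z w₀ w₁ = T.wt z ((f false).wt z w₀ w₁) ((f true).wt z w₀ w₁) := by
  induction T with
  | leaf b => cases b <;> simp [DT.graft, DT.wt]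
  | node i l r hl hr => simp only [DT.graft, DT.wt, hl, hr]

theorem wt_mul (T : DT n) (z w₀ w₁ M : ℝ) : T.wt z (M * w₀) (M * w₁) = M * T.wt z w₀ w₁ := by
  induction T with
  | leaf b => cases b <;> simp [DT.wt]
  | node i l r hl hr =>
    simp only [DT.wt, hl, hr]
    ring

theorem wt_mono (T : DT n) (z w₀ w₁ w₀' w₁' : ℝ) (hz : 0 ≤ z) (h0 : w₀ ≤ w₀') (h1 : w₁ ≤ w₁') :
    T.wt z w₀ w₁ ≤ T.wt z w₀' w₁' := by
  induction T with
  | leaf b => cases b <;> simpa [DT.wt]
  | node i l r hl hr =>
    simp only [DT.wt]
    gcongr

theorem pr_mem (T : DT n) : 0 ≤ T.pr ∧ T.pr ≤ 1 := by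
  induction T with
  | leaf b => cases b <;> simp [DT.pr]
  | node i l r hl hr =>
    simp only [DT.pr]
    constructor <;> linarith [hl.1, hl.2, hr.1, hr.2]

theorem cost_nonneg (T : DT n) : 0 ≤ T.cost := by
  induction T with
  | leaf b => simp [DT.cost]
  | node i l r hl hr =>
    simp only [DT.cost]
    linarith

theorem main : GRAFT.Stm := by
  intro n T f
  exact ⟨eval_graft T f, vars_graft T f, ok_graft T f, depth_graft T f, pr_graft T f,
    cost_graft T f, wt_graft T f, wt_mul T, wt_mono T, (pr_mem T).1, (pr_mem T).2, cost_nonneg T⟩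

end Pool.Agent.W583.Lc.GRAFT
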